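import Pool.Agent.ZP3.Stmts

/-!
Squad ZP3, row SPL: a root of unity is a tame root of unity times a root of unity of `p`-power
order.
-/

set_option autoImplicit false

namespace Pool.Agent.ZP3.H82

open Pool.Agent.ZP3

theorem spl : SPLStmt := by
  intro p hp K _ _ x hx
  obtain ⟨M, hM, hxM⟩ := hx
  have hM0 : M ≠ 0 := by omega
  obtain ⟨k, m, hm, hMk⟩ := Nat.exists_eq_pow_mul_and_not_dvd hM0 p hp.ne_one
  have hx0 : x ≠ 0 := by
    rintro rfl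
    rw [zero_pow hM0] at hxM
    exact zero_ne_one hxM
  have hcop : Nat.Coprime (p ^ k) m :=
    Nat.Coprime.pow_left k ((Nat.Prime.coprime_iff_not_dvd hp).2 hm)
  have hbez := Nat.gcd_eq_gcd_ab (p ^ k) m
  rw [Nat.Coprime.gcd_eq_one hcop] at hbez
  set a := Nat.gcdA (p ^ k) m
  set b := Nat.gcdB (p ^ k) m
  have hzM : x ^ (((p ^ k : ℕ) : ℤ) * (m : ℤ)) = 1 := by
    have h : (((p ^ k : ℕ) : ℤ) * (m : ℤ)) = ((M : ℕ) : ℤ) := by
      rw [hMk]; push_cast; ring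
    rw [h, zpow_natCast, hxM]
  refine ⟨x ^ (((p ^ k : ℕ) : ℤ) * a), x ^ ((m : ℤ) * b), ?_, ?_, ?_⟩
  · rw [← zpow_add₀ hx0, ← hbez]
    simp
  · refine ⟨m, ?_, hm, ?_⟩
    · rcases Nat.eq_zero_or_pos m with h | h
      · exact absurd (h ▸ dvd_zero p) hm
      · exact h
    · rw [← zpow_natCast, ← zpow_mul]
      have h : (((p ^ k : ℕ) : ℤ) * a * ((m : ℕ) : ℤ)) = (((p ^ k : ℕ) : ℤ) * (m : ℤ)) * a := by ring
      rw [h, zpow_mul, hzM, one_zpow]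
  · have hw : (x ^ ((m : ℤ) * b)) ^ (p ^ k) = 1 := by
      rw [← zpow_natCast, ← zpow_mul]
      have h : ((m : ℤ) * b * ((p ^ k : ℕ) : ℤ)) = (((p ^ k : ℕ) : ℤ) * (m : ℤ)) * b := by ring
      rw [h, zpow_mul, hzM, one_zpow]
    have hdvd : orderOf (x ^ ((m : ℤ) * b)) ∣ p ^ k := orderOf_dvd_of_pow_eq_one hw
    obtain ⟨j, _, hj⟩ := (Nat.dvd_prime_pow hp).1 hdvd
    rcases Nat.eq_zero_or_pos j with h0 | h0
    · left
      rw [h0, pow_zero] at hj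
      exact orderOf_eq_one_iff.1 hj
    · right
      refine ⟨j, h0, ?_⟩
      rw [← hj]
      exact IsPrimitiveRoot.orderOf _

end Pool.Agent.ZP3.H82
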